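import Mathlib
import Pool.Agent.W770.KP.Stm

set_option autoImplicit false

open scoped Classical

namespace Pool.Agent.W717.KP.ILMA

open Pool.Agent.W770.KP Finset MvPolynomial

theorem main : S_ILMA := by
  intro m hm F _ _ Z e he
  obtain ⟨q, hq⟩ : ∃ q, q = Fintype.card F := ⟨_, rfl⟩
  rw [← hq] at he ⊢
  have hq0 : 0 < q := by rw [hq]; exact Fintype.card_pos
  have hs : e / m + 1 ≤ q := by
    have : e / m < q := Nat.div_lt_of_lt_mul he
    omega
  obtain ⟨T, _, hT⟩ := Finset.exists_subset_card_eq (s := (univ : Finset F)) (n := e / m + 1)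
    (by rw [card_univ, ← hq]; exact hs)
  have h1 : ∀ z : Fin m → F,
      ((univ : Finset (Fin m → F)).filter (fun τ => ∀ i, z i - τ i ∈ T)).card
        = (e / m + 1) ^ m := by
    intro z
    have h2 : ((univ : Finset (Fin m → F)).filter (fun τ => ∀ i, z i - τ i ∈ T)).card
        = (Fintype.piFinset (fun _ : Fin m => T)).card := by
      apply Finset.card_nbij' (fun τ => z - τ) (fun t => z - t)
      · intro τ hτ
        simp only [coe_filter, mem_univ, true_and, Set.mem_ofPred_eq] at hτ
        simp only [mem_coe, Fintype.mem_piFinset, Pi.sub_apply]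
        exact hτ
      · intro t ht
        simp only [mem_coe, Fintype.mem_piFinset] at ht
        simp only [coe_filter, mem_univ, true_and, Set.mem_ofPred_eq, Pi.sub_apply,
          sub_sub_cancel]
        exact ht
      · intro τ _
        simp
      · intro t _
        simp
    rw [h2, Fintype.card_piFinset_const, hT]
  have hsum : ∑ τ : Fin m → F, (Z.filter (fun z => ∀ i, z i - τ i ∈ T)).card
      = Z.card * (e / m + 1) ^ m := by
    simp_rw [card_filter]
    rw [sum_comm]
    simp_rw [← card_filter, h1]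
    rw [sum_const, smul_eq_mul]
  obtain ⟨τ, hτ⟩ : ∃ τ : Fin m → F, Z.card * (e / m + 1) ^ m
      ≤ (Z.filter (fun z => ∀ i, z i - τ i ∈ T)).card * q ^ m := by
    by_contra hcon
    push Not at hcon
    have h3 : ∑ τ : Fin m → F, (Z.filter (fun z => ∀ i, z i - τ i ∈ T)).card * q ^ m
        < ∑ _τ : Fin m → F, Z.card * (e / m + 1) ^ m :=
      Finset.sum_lt_sum_of_nonempty ⟨0, mem_univ _⟩ (fun τ _ => hcon τ)
    rw [← sum_mul, hsum, sum_const, card_univ, smul_eq_mul, Fintype.card_fun, Fintype.card_fin,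
      ← hq, mul_comm] at h3
    exact lt_irrefl _ h3
  obtain ⟨Z', hZ'⟩ : ∃ Z', Z' = Z.filter (fun z => ∀ i, z i - τ i ∈ T) := ⟨_, rfl⟩
  rw [← hZ'] at hτ
  have hZ'T : ∀ z ∈ Z', ∀ i, z i - τ i ∈ T := by
    intro z hz
    rw [hZ'] at hz
    exact (mem_filter.1 hz).2
  have hZ'Z : ∀ z ∈ Z', z ∈ Z := by
    intro z hz
    rw [hZ'] at hz
    exact (mem_filter.1 hz).1
  let B : (Fin m → F) → MvPolynomial (Fin m) F :=
    fun z => ∏ i, ∏ w ∈ T.erase (z i - τ i), (X i - C (w + τ i))
  have hBe : ∀ z z' : Fin m → F,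
      eval z' (B z) = ∏ i, ∏ w ∈ T.erase (z i - τ i), (z' i - (w + τ i)) := by
    intro z z'
    simp [B, map_prod]
  have hB0 : ∀ z ∈ Z', ∀ z' ∈ Z', z' ≠ z → eval z' (B z) = 0 := by
    intro z _ z' hz' hne
    rw [hBe]
    obtain ⟨i, hi⟩ : ∃ i, z' i ≠ z i := Function.ne_iff.1 hne
    apply Finset.prod_eq_zero (mem_univ i)
    apply Finset.prod_eq_zero (i := z' i - τ i)
    · rw [mem_erase]
      exact ⟨fun h => hi (sub_left_injective h), hZ'T z' hz' i⟩
    · ring
  have hB1 : ∀ z ∈ Z', eval z (B z) ≠ 0 := by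
    intro z _
    rw [hBe, Finset.prod_ne_zero_iff]
    intro i _
    rw [Finset.prod_ne_zero_iff]
    intro w hw h
    rw [mem_erase] at hw
    apply hw.1
    rw [sub_eq_zero] at h
    rw [h]
    ring
  refine ⟨Z'.card, fun s => B (Z'.equivFin.symm s : Fin m → F), ?_, ?_, ?_⟩
  · intro s
    have hz := (Z'.equivFin.symm s).2
    calc (B (Z'.equivFin.symm s : Fin m → F)).totalDegree
        ≤ ∑ i, (∏ w ∈ T.erase ((Z'.equivFin.symm s : Fin m → F) i - τ i),
            (X i - C (w + τ i) : MvPolynomial (Fin m) F)).totalDegree :=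
          totalDegree_finsetProd _ _
      _ ≤ ∑ _i : Fin m, (e / m) := by
          apply sum_le_sum
          intro i _
          calc (∏ w ∈ T.erase ((Z'.equivFin.symm s : Fin m → F) i - τ i),
                (X i - C (w + τ i) : MvPolynomial (Fin m) F)).totalDegree
              ≤ ∑ w ∈ T.erase ((Z'.equivFin.symm s : Fin m → F) i - τ i),
                (X i - C (w + τ i) : MvPolynomial (Fin m) F).totalDegree :=
                totalDegree_finsetProd _ _
            _ ≤ ∑ _w ∈ T.erase ((Z'.equivFin.symm s : Fin m → F) i - τ i), 1 := by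
                apply sum_le_sum
                intro w _
                refine le_trans (totalDegree_sub_C_le _ _) ?_
                rw [totalDegree_X]
            _ = e / m := by
                rw [sum_const, smul_eq_mul, mul_one, card_erase_of_mem (hZ'T _ hz i), hT]
                exact Nat.add_sub_cancel _ _
      _ = m * (e / m) := by simp
      _ ≤ e := Nat.mul_div_le e m
  · have h4 : (Z.card : ℝ) * ((e / m + 1 : ℕ) : ℝ) ^ m ≤ (Z'.card : ℝ) * (q : ℝ) ^ m := by
      exact_mod_cast hτ
    have hqr : (0 : ℝ) < q := by exact_mod_cast hq0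
    have hmr : (0 : ℝ) < m := by exact_mod_cast hm
    have h5 : ((e : ℝ) + 1) / ((m : ℝ) * (q : ℝ)) ≤ ((e / m + 1 : ℕ) : ℝ) / (q : ℝ) := by
      rw [div_le_div_iff₀ (by positivity) hqr]
      have h6 : (e : ℝ) + 1 ≤ ((e / m + 1 : ℕ) : ℝ) * m := by
        have h7 : e + 1 ≤ (e / m + 1) * m := by
          have := Nat.lt_div_mul_add (a := e) hm
          rw [add_mul, one_mul]
          omega
        exact_mod_cast h7
      calc ((e : ℝ) + 1) * q ≤ (((e / m + 1 : ℕ) : ℝ) * m) * q :=
            mul_le_mul_of_nonneg_right h6 hqr.le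
        _ = ((e / m + 1 : ℕ) : ℝ) * (m * q) := by ring
    calc (Z.card : ℝ) * (((e : ℝ) + 1) / ((m : ℝ) * (q : ℝ))) ^ m
        ≤ (Z.card : ℝ) * (((e / m + 1 : ℕ) : ℝ) / (q : ℝ)) ^ m := by
          apply mul_le_mul_of_nonneg_left _ (Nat.cast_nonneg _)
          apply pow_le_pow_left₀ (by positivity) h5
      _ = ((Z.card : ℝ) * ((e / m + 1 : ℕ) : ℝ) ^ m) / (q : ℝ) ^ m := by
          rw [div_pow]; ring
      _ ≤ (Z'.card : ℝ) := by
          rw [div_le_iff₀ (by positivity)]
          exact h4
  · intro c hc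
    funext s
    have hz := (Z'.equivFin.symm s).2
    have h8 := hc _ (hZ'Z _ hz)
    unfold lc at h8
    rw [map_sum, Finset.sum_eq_single s] at h8
    · rw [map_mul, eval_C] at h8
      rcases mul_eq_zero.1 h8 with h9 | h9
      · exact h9
      · exact absurd h9 (hB1 _ hz)
    · intro s' _ hs'
      rw [map_mul, hB0 _ (Z'.equivFin.symm s').2 _ hz, mul_zero]
      intro h10
      apply hs'
      exact Z'.equivFin.symm.injective (Subtype.ext h10.symm)
    · intro h11
      exact absurd (mem_univ s) h11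

end Pool.Agent.W717.KP.ILMA
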